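import Pool.Agent.PyberSolv.Complement

set_option autoImplicit false

namespace Pool.Agent.Results.MP_6bd831_al.SolvableGroups

/-- For every finite solvable group `G`, the number of conjugacy classes of `G` is at most the
product, over the primes `p` dividing the order of `G`, of the number of conjugacy classes of a
Sylow `p`-subgroup of `G`. -/
theorem result (G : Type) [Group G] [Finite G] (hG : Group.IsSolvable G) (f : ℕ → ℕ)
    (hf : ∀ p ∈ (Nat.card G).primeFactors,
      ∃ P : Sylow p G, f p = Nat.card (ConjClasses ↥(P : Subgroup G))) :
    Nat.card (ConjClasses G) ≤ ∏ p ∈ (Nat.card G).primeFactors, f p :=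
  Pool.Agent.PyberSolv.solvable_case _ G rfl f hf

end Pool.Agent.Results.MP_6bd831_al.SolvableGroups
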